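import Pool.Agent.W14.US.Stm

namespace Pool.Agent.W373.US

open MeasureTheory intervalIntegral
open scoped ContDiff
open Pool.Agent.W14.US

theorem cutCore (c s : ℝ) (hs : 0 < s) : ∃ h p : ℝ → ℝ, ContDiff ℝ ∞ h ∧ ContDiff ℝ ∞ p ∧
    (∀ x, HasDerivAt h (p x) x) ∧
    (∀ x, 0 ≤ p x ∧ p x ≤ 1) ∧ (∀ x, |x - c| ≤ s / 2 → p x = 1) ∧ (∀ x, s ≤ |x - c| → p x = 0) ∧
    (∀ x, x ≤ c - s → h x = 0) ∧ (∀ x, 0 ≤ h x ∧ h x ≤ 2 * s) := by
  let f : ContDiffBump c := ⟨s / 2, s, by positivity, by linarith⟩
  have hfc : Continuous f := f.continuous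
  have hf0 : ∀ x, s ≤ |x - c| → f x = 0 := by
    intro x hx
    apply f.zero_of_le_dist
    rw [Real.dist_eq]
    exact hx
  have hder : ∀ x, HasDerivAt (fun x => ∫ t in (c - s)..x, f t) (f x) x := by
    intro x
    exact intervalIntegral.integral_hasDerivAt_right (hfc.intervalIntegrable _ _)
      hfc.aestronglyMeasurable.stronglyMeasurableAtFilter hfc.continuousAt
  have hdiff : Differentiable ℝ (fun x => ∫ t in (c - s)..x, f t) := fun x => (hder x).differentiableAt
  have hderiv : deriv (fun x => ∫ t in (c - s)..x, f t) = f := funext fun x => (hder x).deriv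
  have hpc : ContDiff ℝ ∞ (f : ℝ → ℝ) := f.contDiff
  have hz : ∀ x, x ≤ c - s → (∫ t in (c - s)..x, f t) = 0 := by
    intro x hx
    rw [intervalIntegral.integral_symm]
    rw [intervalIntegral.integral_congr (g := fun _ => (0 : ℝ))]
    · simp
    · intro t ht
      rw [Set.uIcc_of_le hx] at ht
      apply hf0
      rw [abs_sub_comm, abs_of_nonneg (by linarith [ht.2])]
      linarith [ht.2]
  have hmono : Monotone (fun x => ∫ t in (c - s)..x, f t) := by
    apply monotone_of_deriv_nonneg hdiff
    intro x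
    rw [hderiv]
    exact f.nonneg
  refine ⟨fun x => ∫ t in (c - s)..x, f t, f, ?_, hpc, hder, fun x => ⟨f.nonneg, f.le_one⟩, ?_,
    hf0, hz, ?_⟩
  · rw [contDiff_infty_iff_deriv]
    refine ⟨hdiff, ?_⟩
    rw [hderiv]
    exact hpc
  · intro x hx
    apply f.one_of_mem_closedBall
    rw [Metric.mem_closedBall, Real.dist_eq]
    exact hx
  · intro x
    change 0 ≤ (∫ t in (c - s)..x, f t) ∧ (∫ t in (c - s)..x, f t) ≤ 2 * s
    have h0 : 0 ≤ ∫ t in (c - s)..x, f t := by
      rcases le_total x (c - s) with h | h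
      · rw [hz x h]
      · have := hmono h
        simpa using this
    refine ⟨h0, ?_⟩
    have hup : ∀ y, c - s ≤ y → y ≤ c + s → (∫ t in (c - s)..y, f t) ≤ 2 * s := by
      intro y h1 h2
      have := intervalIntegral.integral_mono_on (μ := volume) h1 (hfc.intervalIntegrable _ _)
        (continuous_const.intervalIntegrable (u := fun _ : ℝ => (1 : ℝ)) _ _)
        (fun t _ => (f.le_one : f t ≤ 1))
      rw [intervalIntegral.integral_const, smul_eq_mul, mul_one] at this
      linarith
    rcases le_total x (c + s) with h | h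
    · rcases le_total (c - s) x with h' | h'
      · exact hup x h' h
      · rw [hz x h']
        positivity
    · have h1 : (∫ t in (c - s)..x, f t) = (∫ t in (c - s)..(c + s), f t) +
          ∫ t in (c + s)..x, f t :=
        (intervalIntegral.integral_add_adjacent_intervals (hfc.intervalIntegrable _ _)
          (hfc.intervalIntegrable _ _)).symm
      have h2 : (∫ t in (c + s)..x, f t) = 0 := by
        rw [intervalIntegral.integral_congr (g := fun _ => (0 : ℝ))]
        · simp
        · intro t ht
          rw [Set.uIcc_of_le h] at ht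
          apply hf0
          rw [abs_of_nonneg (by linarith [ht.1])]
          linarith [ht.1]
      rw [h1, h2, add_zero]
      exact hup _ (by linarith) le_rfl

theorem cut : S_CUT := by
  intro c s hs
  obtain ⟨h, p, h1, h2, h3, h4, h5, h6, h7, h8⟩ := cutCore c s hs
  have hd : ∀ x, deriv h x = p x := fun x => (h3 x).deriv
  refine ⟨h, h1, h8, ?_, ?_, ?_⟩
  · intro x
    rw [hd]
    exact h4 x
  · intro x hx
    rw [hd]
    exact h5 x hx
  · intro x hx
    rw [hd]
    exact h6 x hx

end Pool.Agent.W373.US
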